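import Pool.Agent.Lib.CompactGroup.Kernels

-- part MP_37cedb_gt.Profinite
section

/-!
A compact group with an essential subgroup without small zero-dimensional metrizable pieces has no
infinite profinite normal subgroup.
-/

namespace Pool.Agent.MP_37cedb_gt

open Filter Topology Set Pool.Agent.Lib.CompactGroup

universe u

variable {K : Type u} [Group K] [TopologicalSpace K] [IsTopologicalGroup K] [CompactSpace K]
  [T2Space K]

/-- the hypotheses on the subgroup `G` of the compact group `K` -/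
structure Hyp (G : Subgroup K) : Prop where
  ess : ∀ N : Subgroup K, N.Normal → IsClosed (N : Set K) → N ≠ ⊥ → ∃ x ∈ G, x ∈ N ∧ x ≠ 1
  cc : IsCountablyCompact (G : Set K)
  zm : ∀ L : Subgroup K, IsClosed (L : Set K) → ∀ (ι : Type u) [Countable ι] (φ : L → ι → Bool),
    Continuous φ → Function.Injective φ → ∃ W ∈ 𝓝 (1 : K), ∀ x ∈ G, x ∈ L → x ∈ W → x = 1

omit [TopologicalSpace K] [IsTopologicalGroup K] [CompactSpace K] [T2Space K] in
theorem countable_closure {s : Set K} (hs : s.Countable) :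
    (Subgroup.closure s : Set K).Countable := by
  have := hs.to_subtype
  rw [FreeGroup.closure_eq_range, MonoidHom.coe_range]
  exact countable_range _

omit [T2Space K] in
theorem countable_kernels {g : ℕ → K} (hg : ∀ N, Ker N → ∀ᶠ n in atTop, g n ∈ N)
    (hL : PF (Subgroup.closure (range g)).topologicalClosure) :
    ((· ⊓ (Subgroup.closure (range g)).topologicalClosure) '' {N | Ker N}).Countable := by
  set Γ := Subgroup.closure (range g)
  set L := Γ.topologicalClosure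
  have hLc : IsClosed (L : Set K) := Γ.isClosed_topologicalClosure
  let Γ' : ℕ → Subgroup K := fun m => Subgroup.closure (g '' Iio m)
  have hΓ' : ∀ m, Γ' m ≤ Γ := fun m => Subgroup.closure_mono (image_subset_range _ _)
  let T : ℕ → Set K → Set (Subgroup K) := fun m s =>
    {N | Ker N ∧ (∀ n ≥ m, g n ∈ N) ∧ Subgroup.closure s = N ⊓ Γ' m}
  have hT : ∀ m s, ∀ N ∈ T m s, ∀ N' ∈ T m s, N ⊓ L ≤ N' ⊓ L := by
    rintro m s N ⟨hN, h1, h2⟩ N' ⟨hN', h1', h2'⟩ x ⟨hx, hxL⟩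
    have hn := (hN.inf hN').normal
    obtain ⟨O, hO, hO1, hO'⟩ := mem_nhdsWithin.1 (hL _ (hN.inf hN'))
    obtain ⟨γ, hγ, hγ'⟩ := mem_closure_iff.1 (show x ∈ closure (Γ : Set K) from hxL)
      ((fun y => x⁻¹ * y) ⁻¹' O) (hO.preimage (by fun_prop)) (by simpa using hO1)
    have h3 : x⁻¹ * γ ∈ N ⊓ N' :=
      hO' ⟨hγ, L.mul_mem (L.inv_mem hxL) (Γ.le_topologicalClosure hγ')⟩
    have h4 : Γ ≤ Γ' m ⊔ (N ⊓ N') := (Subgroup.closure_le _).2 (by
      rintro _ ⟨n, rfl⟩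
      by_cases h : n < m
      · exact Subgroup.mem_sup_left (Subgroup.subset_closure ⟨n, h, rfl⟩)
      · exact Subgroup.mem_sup_right ⟨h1 n (not_lt.1 h), h1' n (not_lt.1 h)⟩)
    obtain ⟨δ, hδ, c, hc, rfl⟩ := Subgroup.mem_sup_of_normal_right.1 (h4 hγ')
    have h5 : δ ∈ N := by simpa using N.mul_mem (N.mul_mem hx h3.1) (N.inv_mem hc.1)
    have h6 : δ ∈ N' := ((h2.symm.trans h2').le ⟨h5, hδ⟩).1
    exact ⟨by simpa [← mul_assoc] using N'.mul_mem (N'.mul_mem h6 hc.2) (N'.inv_mem h3.2), hxL⟩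
  refine Countable.mono ?_ (countable_iUnion fun m => (countable_ofPred_finite_subset
    (countable_closure (countable_range g))).biUnion fun s _ =>
      Set.Subsingleton.countable (s := (· ⊓ L) '' T m s) ?_)
  · rintro _ ⟨N, hN, rfl⟩
    obtain ⟨m, hm⟩ := eventually_atTop.1 (hg N hN)
    have h1 : N.relIndex (Γ' m) ≠ 0 := fun h => relIndex_ne_zero hLc (hL N hN)
      (Subgroup.relIndex_eq_zero_of_le_right ((hΓ' m).trans Γ.le_topologicalClosure) h)
    have : (N.subgroupOf (Γ' m)).FiniteIndex := ⟨h1⟩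
    have : Group.FG (Γ' m) := (Group.fg_iff_subgroup_fg _).2 ((Subgroup.fg_iff _).2
      ⟨_, rfl, (finite_Iio m).image g⟩)
    obtain ⟨s, hs, hs'⟩ := (Subgroup.fg_iff _).1
      ((Group.fg_iff_subgroup_fg (N.subgroupOf (Γ' m))).1 inferInstance)
    refine mem_iUnion.2 ⟨m, mem_biUnion (x := (Γ' m).subtype '' s) ⟨hs'.image _, ?_⟩
      ⟨N, ⟨hN, hm, ?_⟩, rfl⟩⟩
    · rintro _ ⟨y, -, rfl⟩
      exact hΓ' m y.2
    · rw [← MonoidHom.map_closure, hs, Subgroup.subgroupOf_map_subtype]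
  · rintro _ ⟨N, hN, rfl⟩ _ ⟨N', hN', rfl⟩
    exact le_antisymm (hT m s N hN N' hN') (hT m s N' hN' N hN)

variable {G : Subgroup K}

theorem Hyp.no_null (h : Hyp G) {g : ℕ → K} (hG : ∀ n, g n ∈ G) (h1 : ∀ n, g n ≠ 1)
    (hg : ∀ N, Ker N → ∀ᶠ n in atTop, g n ∈ N)
    (hL : PF (Subgroup.closure (range g)).topologicalClosure) : False := by
  classical
  have hc := (countable_kernels hg hL).to_subtype
  have hc' := (countable_closure (countable_range g)).to_subtype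
  set Γ := Subgroup.closure (range g)
  set L := Γ.topologicalClosure
  obtain ⟨W, hW, hW'⟩ := h.zm L Γ.isClosed_topologicalClosure
    (↥(Γ : Set K) × ↥((· ⊓ L) '' {N | Ker N})) (fun x p => decide (p.1.1⁻¹ * x.1 ∈ p.2.1)) (by
      refine continuous_pi ?_
      rintro ⟨γ, _, N, hN, rfl⟩
      have h2 := isOpen_subgroupOf (hL N hN)
      have h3 : IsClopen (N.subgroupOf L : Set L) := ⟨Subgroup.isClosed_of_isOpen _ h2, h2⟩
      have h4 := h3.preimage (f := fun x : L => (⟨γ, Γ.le_topologicalClosure γ.2⟩ : L)⁻¹ * x)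
        (by fun_prop)
      have h5 : γ.1 ∈ L := Γ.le_topologicalClosure γ.2
      refine (continuous_bool_rng true).2 (Eq.mp (congrArg IsClopen ?_) h4)
      ext x
      simp [Subgroup.mem_subgroupOf, L.mul_mem_cancel_right x.2, h5]) (by
      intro x y hxy
      by_contra hne
      obtain ⟨N, hN, hN'⟩ := exists_ker (g := (x : K)⁻¹ * y)
        fun h => hne (Subtype.ext (inv_mul_eq_one.1 h))
      obtain ⟨O, hO, hO1, hO'⟩ := mem_nhdsWithin.1 (hL _ hN)
      obtain ⟨γ, hγ, hγ'⟩ := mem_closure_iff.1 (show (x : K) ∈ closure (Γ : Set K) from x.2)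
        ((fun y => y⁻¹ * x) ⁻¹' O) (hO.preimage (by fun_prop)) (by simpa using hO1)
      have h2 : γ⁻¹ * x ∈ L := L.mul_mem (L.inv_mem (Γ.le_topologicalClosure hγ')) x.2
      have h3 : γ⁻¹ * x ∈ N ⊓ L := ⟨hO' ⟨hγ, h2⟩, h2⟩
      have h4 := congrFun hxy (⟨γ, hγ'⟩, ⟨N ⊓ L, N, hN, rfl⟩)
      simp only [h3, decide_true, true_eq_decide_iff] at h4
      exact hN' (by simpa using N.mul_mem (N.inv_mem h3.1) h4.1))
  obtain ⟨N, hN, hNW⟩ := exists_ker_subset hW
  obtain ⟨n, hn⟩ := (hg N hN).exists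
  exact h1 n (hW' _ (hG n) (Γ.le_topologicalClosure (Subgroup.subset_closure ⟨n, rfl⟩)) (hNW hn))

theorem Hyp.no_seq (h : Hyp G) {D : Subgroup K} (hD : PF D) (hDc : IsClosed (D : Set K))
    {N : ℕ → Subgroup K} (ha : Antitone N) (hn : ∀ n, (N n).Normal)
    (hc : ∀ n, IsClosed (N n : Set K)) (hle : ∀ n, N n ≤ D) (hne : ∀ n, N n ≠ ⊥)
    (h1 : ∀ x, (∀ n, x ∈ N n) → x = 1) : False := by
  choose g hg hg' hg1 using fun n => h.ess _ (hn n) (hc n) (hne n)
  refine h.no_null hg hg1 (fun U hU => (eventually_le_ker ha hc h1 hU).mono fun n hn => hn (hg' n))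
    (hD.mono (Subgroup.topologicalClosure_minimal _ ((Subgroup.closure_le _).2 ?_) hDc))
  rintro _ ⟨n, rfl⟩
  exact hle n (hg' n)

/-- closed normal subgroups of relative index `< n` separate the points of `D` -/
def Bd (D : Subgroup K) (n : ℕ) : Prop :=
  ∀ x ∈ D, x ≠ 1 → ∃ U : Subgroup K, U.Normal ∧ IsClosed (U : Set K) ∧ U.relIndex D ≠ 0 ∧
    U.relIndex D < n ∧ x ∉ U

/-- maximal proper open normal subgroups -/
def Mx (D : Subgroup K) : Set (Subgroup K) :=
  {P | P.Normal ∧ IsClosed (P : Set K) ∧ P ≤ D ∧ ¬ D ≤ P ∧ P.relIndex D ≠ 0 ∧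
    ∀ P' : Subgroup K, P'.Normal → P ≤ P' → P' ≤ D → P' ≤ P ∨ D ≤ P'}

omit [CompactSpace K] [T2Space K] in
theorem Bd.rad {D : Subgroup K} (hn : D.Normal) (hc : IsClosed (D : Set K)) {k : ℕ}
    (h : Bd D (k + 1)) : Bd (D ⊓ sInf (Mx D)) k := by
  intro x hx hx1
  obtain ⟨U, hU1, hU2, hU3, hU4, hU5⟩ := h x hx.1 hx1
  rw [← Subgroup.inf_relIndex_right] at hU3 hU4
  obtain ⟨P, ⟨h1, h2, h3, h4⟩, hmin⟩ := (measure fun P : Subgroup K => P.relIndex D).wf.has_min
    {P | P.Normal ∧ U ⊓ D ≤ P ∧ P ≤ D ∧ ¬ D ≤ P}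
    ⟨U ⊓ D, inferInstance, le_rfl, inf_le_right, fun h => hU5 (h hx.1).1⟩
  have h5 : P.relIndex D ≠ 0 := fun h => hU3 (Subgroup.relIndex_eq_zero_of_le_left h2 h)
  have hP : P ∈ Mx D := by
    refine ⟨h1, ?_, h3, h4, h5, fun P' h6 h7 h8 => ?_⟩
    · rw [← inf_eq_left.2 h3]
      exact isClosed_inf_of_nhds hc (mem_of_superset (mem_nhdsWithin_of_relIndex (hU2.inter hc) hU3)
        h2)
    · by_contra hcon
      push Not at hcon
      refine hmin P' ⟨h6, h2.trans h7, h8, hcon.2⟩ ?_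
      change P'.relIndex D < P.relIndex D
      have h9 := Subgroup.relIndex_mul_relIndex P P' D h7 h8
      have h10 : P.relIndex P' ≠ 1 := fun h => hcon.1 (Subgroup.relIndex_eq_one.1 h)
      rw [← h9] at h5 ⊢
      have := (mul_ne_zero_iff.1 h5).1
      have := (mul_ne_zero_iff.1 h5).2
      exact lt_mul_of_one_lt_left (by omega) (by omega)
  have h6 := Subgroup.relIndex_mul_relIndex (U ⊓ D) P D h2 h3
  have h7 : P.relIndex D ≠ 1 := fun h => h4 (Subgroup.relIndex_eq_one.1 h)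
  have h8 : (U ⊓ D).relIndex P ≠ 0 := fun h => hU3 (by rw [← h6, h, zero_mul])
  have h9 : D ⊓ sInf (Mx D) ≤ P := inf_le_right.trans (sInf_le hP)
  refine ⟨U ⊓ D, inferInstance, hU2.inter hc,
    fun h => h8 (Subgroup.relIndex_eq_zero_of_le_right h9 h),
    (Subgroup.relIndex_le_of_le_right h9 h8).trans_lt ?_, fun h => hU5 h.1⟩
  have : (U ⊓ D).relIndex P < (U ⊓ D).relIndex P * P.relIndex D :=
    lt_mul_of_one_lt_right (by omega) (by omega)
  omega

theorem Hyp.finite_of_bd (h : Hyp G) (k : ℕ) : ∀ D : Subgroup K, D.Normal → IsClosed (D : Set K) →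
    PF D → Bd D k → (D : Set K).Finite := by
  induction k with
  | zero =>
    intro D _ _ _ hb
    refine (finite_singleton 1).subset fun x hx => by_contra fun hx1 => ?_
    obtain ⟨U, -, -, -, h, -⟩ := hb x hx hx1
    omega
  | succ k ih =>
    intro D hn hc hD hb
    have hR := ih _ (normal_inf_sInf hn fun P hP => hP.1) (isClosed_inf_sInf hc fun P hP => hP.2.1)
      (hD.mono inf_le_left) (hb.rad hn hc)
    obtain ⟨J, hJ, hmax, hcase⟩ := exists_indep hc (Mx D) (fun P hP => hP.2.1)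
      (fun P hP => hP.2.2.2.1) fun P hP x _ p _ hp => by simpa using hP.1.conj_mem p hp x⁻¹
    have hJn := normal_inf_sInf hn fun P hP => (hJ hP).1
    have hfin : ((D ⊓ sInf J : Subgroup K) : Set K).Finite := by
      refine hR.subset (le_inf inf_le_left (le_sInf fun P hP => ?_) : D ⊓ sInf J ≤ _)
      have := hP.1
      rcases hP.2.2.2.2.2 (D ⊓ sInf J ⊔ P) inferInstance le_sup_right
        (sup_le inf_le_left hP.2.2.1) with h1 | h1
      · exact le_sup_left.trans h1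
      · refine absurd (fun x hx => ?_) (hmax P hP)
        obtain ⟨y, hy, z, hz, rfl⟩ := Subgroup.mem_sup_of_normal_right.1 (h1 hx)
        exact ⟨y, hy, by simpa using hz⟩
    rcases hcase with hJf | ⟨P, Q, N, hP, -, hN, ha, hQN, hND, hprod, -, hQP⟩
    · refine finite_of_relIndex (U := sInf J) (relIndex_ne_zero hc ?_) (by rwa [inf_comm])
      rw [Subgroup.coe_sInf]
      exact (biInter_mem hJf).2 fun P hP =>
        mem_nhdsWithin_of_relIndex (hJ hP).2.1 (hJ hP).2.2.2.2.1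
    exfalso
    obtain ⟨U, hU, hU'⟩ := exists_ker_disjoint hfin
    have hNn : ∀ n, (N n).Normal := fun n => by
      obtain ⟨I, hI, he⟩ := hN n
      exact he ▸ normal_inf_sInf hn fun P hP => (hI hP).1
    have hNc : ∀ n, IsClosed (N n : Set K) := fun n => by
      obtain ⟨I, hI, he⟩ := hN n
      exact he ▸ isClosed_inf_sInf hc fun P hP => (hI hP).2.1
    have hND' : ∀ n, N n ≤ D := fun n => by
      obtain ⟨I, hI, he⟩ := hN n
      exact he ▸ inf_le_left
    have hq : ∀ n, ∃ q ∈ Q n, q ∉ P n := fun n => by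
      by_contra hcon
      push Not at hcon
      refine (hP n).2.2.2.1 fun x hx => ?_
      obtain ⟨q, hq, hq'⟩ := hprod n x hx
      simpa using (P n).mul_mem (hcon q hq) hq'
    choose q hq hq' using hq
    have := hU.normal
    refine h.no_seq hD hc (N := fun n => U ⊓ N n) (fun a b hab => inf_le_inf_left U (ha hab))
      (fun n => by have := hNn n; infer_instance) (fun n => hU.isClosed.inter (hNc n))
      (fun n => inf_le_right.trans (hND' n)) (fun n hbot => ?_)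
      fun x hx => hU'.le ⟨(hx 0).1, hND x fun n => (hx n).2⟩
    refine infinite_of_injective_forall_mem (f := fun i => q (n + i)) (s := N n)
      (fun a b hab => ?_) (fun i => ha (Nat.le_add_right n i) (hQN _ (hq _)))
      (finite_of_relIndex (relIndex_ne_zero (hNc n) (hD.mono (hND' n) U hU)) (by simp [hbot]))
    by_contra hne
    exact hq' (n + b) (hQP (n + a) (n + b) (by omega)
      ((show q (n + a) = q (n + b) from hab) ▸ hq (n + a)))

/-- There is no infinite profinite normal subgroup. -/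
theorem Hyp.finite_of_pf (h : Hyp G) {D : Subgroup K} (hn : D.Normal) (hc : IsClosed (D : Set K))
    (hD : PF D) : (D : Set K).Finite := by
  by_contra hinf
  let S : ℕ → Set (Subgroup K) := fun n =>
    {U | U.Normal ∧ IsClosed (U : Set K) ∧ U.relIndex D ≠ 0 ∧ U.relIndex D < n}
  refine h.no_seq hD hc (N := fun n => D ⊓ sInf (S n))
    (fun a b hab => inf_le_inf_left D (sInf_le_sInf fun U hU =>
      ⟨hU.1, hU.2.1, hU.2.2.1, hU.2.2.2.trans_le hab⟩))
    (fun n => normal_inf_sInf hn fun U hU => hU.1)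
    (fun n => isClosed_inf_sInf hc fun U hU => hU.2.1) (fun n => inf_le_left)
    (fun n hbot => hinf (h.finite_of_bd n D hn hc hD fun x hx hx1 => ?_)) fun x hx => ?_
  · by_contra hcon
    push Not at hcon
    exact hx1 (hbot.le ⟨hx, Subgroup.mem_sInf.2 fun U hU => hcon U hU.1 hU.2.1 hU.2.2.1 hU.2.2.2⟩)
  · by_contra hx1
    obtain ⟨U, hU, hxU⟩ := exists_ker hx1
    exact hxU (Subgroup.mem_sInf.1 (hx (U.relIndex D + 1)).2 U
      ⟨hU.normal, hU.isClosed, relIndex_ne_zero hc (hD U hU), Nat.lt_succ_self _⟩)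

end Pool.Agent.MP_37cedb_gt

end

-- part MP_37cedb_gt.Main
section

/-!
A compact group with an essential, countably compact subgroup without small zero-dimensional
metrizable pieces has a faithful representation.
-/

namespace Pool.Agent.MP_37cedb_gt

open Filter Topology Set Pool.Agent.Lib.CompactGroup

universe u

variable {K : Type u} [Group K]

/-- elements of an abelian subgroup whose `e`-th power lies in `N` -/
def pw (A : Subgroup K) (hA : ∀ a ∈ A, ∀ b ∈ A, Commute a b) (N : Subgroup K) (e : ℕ) :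
    Subgroup K where
  carrier := {a | a ∈ A ∧ a ^ e ∈ N}
  one_mem' := ⟨A.one_mem, by simp⟩
  mul_mem' := fun {a b} ha hb => ⟨A.mul_mem ha.1 hb.1, by
    rw [(hA a ha.1 b hb.1).mul_pow]; exact N.mul_mem ha.2 hb.2⟩
  inv_mem' := fun ha => ⟨A.inv_mem ha.1, by rw [inv_pow]; exact N.inv_mem ha.2⟩

theorem pw_normal {A : Subgroup K} (hA : ∀ a ∈ A, ∀ b ∈ A, Commute a b) {N : Subgroup K}
    (hAn : A.Normal) (hN : N.Normal) (e : ℕ) : (pw A hA N e).Normal :=
  ⟨fun a ha g => ⟨hAn.conj_mem a ha.1 g, by rw [conj_pow]; exact hN.conj_mem _ ha.2 g⟩⟩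

variable [TopologicalSpace K] [IsTopologicalGroup K]

theorem pw_isClosed {A : Subgroup K} (hA : ∀ a ∈ A, ∀ b ∈ A, Commute a b) {N : Subgroup K}
    (hAc : IsClosed (A : Set K)) (hN : IsClosed (N : Set K)) (e : ℕ) :
    IsClosed (pw A hA N e : Set K) :=
  hAc.inter (hN.preimage (continuous_pow e))

variable [CompactSpace K] [T2Space K] {G : Subgroup K}

theorem Hyp.finite_of_le_abelian (h : Hyp G) {A D : Subgroup K}
    (hA : ∀ a ∈ A, ∀ b ∈ A, Commute a b) (hAn : A.Normal) (hAc : IsClosed (A : Set K))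
    (hDA : D ≤ A) (hc : IsClosed (D : Set K)) (hD : PF D) : (D : Set K).Finite := by
  let S := (fun N => pw A hA N (N.relIndex D)) '' {N | Ker N}
  refine (h.finite_of_pf (D := A ⊓ sInf S) (normal_inf_sInf hAn ?_) (isClosed_inf_sInf hAc ?_)
    (PF.of_exp fun N hN => ⟨N.relIndex D, Nat.pos_of_ne_zero (relIndex_ne_zero hc (hD N hN)),
      fun y hy => (Subgroup.mem_sInf.1 hy.2 _ ⟨N, hN, rfl⟩).2⟩)).subset
    (le_inf hDA (le_sInf ?_) : D ≤ _)
  · rintro _ ⟨N, hN, rfl⟩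
    exact pw_normal hA hAn hN.normal _
  · rintro _ ⟨N, hN, rfl⟩
    exact pw_isClosed hA hAc hN.isClosed _
  · rintro _ ⟨N, hN, rfl⟩ y hy
    have := hN.normal
    exact ⟨hDA hy, N.pow_relIndex_mem hy⟩

theorem Hyp.exists_ker_abelian (h : Hyp G) {A : Subgroup K}
    (hA : ∀ a ∈ A, ∀ b ∈ A, Commute a b) (hAn : A.Normal) (hAc : IsClosed (A : Set K)) :
    ∃ N, Ker N ∧ N ⊓ A = ⊥ := by
  have : CompactSpace A := isCompact_iff_compactSpace.1 hAc.isCompact
  have hmem : ∀ (χ : A →* Circle) (y : A), y.1 ∈ χ.ker.map A.subtype ↔ χ y = 1 := fun χ y =>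
    ⟨fun ⟨z, hz, h⟩ => (Subtype.ext h : z = y) ▸ hz, fun h => ⟨y, h, rfl⟩⟩
  have hnss : ∀ χ : A →* Circle, Continuous χ → NSS A (χ.ker.map A.subtype) := fun χ hχ =>
    NSS.of_hom (f := Circle.coeHom.comp χ) (continuous_subtype_val.comp hχ)
      (fun y => (hmem χ y).trans Circle.coe_eq_one.symm) (Subgroup.map_subtype_le _)
  have hne : (-1 : Circle) ≠ 1 := Circle.neg_ne_self 1
  let Ps := {P : Subgroup K | ∃ χ : A →* Circle, Continuous χ ∧ Function.Surjective χ ∧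
    P = χ.ker.map A.subtype}
  have hPc : ∀ P ∈ Ps, IsClosed (P : Set K) := by
    rintro _ ⟨χ, hχ, -, rfl⟩
    exact hAc.isClosedEmbedding_subtypeVal.isClosedMap _ (isClosed_eq hχ continuous_const)
  obtain ⟨J, hJ, hmax, hcase⟩ := exists_indep hAc Ps hPc
    (by
      rintro _ ⟨χ, -, hs, rfl⟩ hle
      obtain ⟨y, hy⟩ := hs (-1)
      exact hne (hy ▸ (hmem χ y).1 (hle y.2)))
    fun P _ x hx p hp hp' => by rwa [mul_assoc, ← (hA x hx p hp).eq, inv_mul_cancel_left]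
  have hDc := isClosed_inf_sInf hAc fun P hP => hPc P (hJ hP)
  have hD : PF (A ⊓ sInf J) := by
    refine PF.of_small hDc fun x hx hx1 => ?_
    obtain ⟨χ, hχ, hχx⟩ := exists_character (K := A) (fun a b => Subtype.ext (hA a a.2 b b.2))
      (g := ⟨x, hx.1⟩) fun h => hx1 (congrArg Subtype.val h)
    rcases circle_subgroup (S := ((A ⊓ sInf J).subgroupOf A).map χ)
      ((hDc.preimage continuous_subtype_val).isCompact.image hχ).isClosed with h1 | ⟨n, hn, h1⟩
    · have h2 : ∀ z, ∃ y : A, y.1 ∈ A ⊓ sInf J ∧ χ y = z := fun z =>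
        (h1.ge (Subgroup.mem_top z) :)
      refine absurd (fun a ha => ?_) (hmax _ ⟨χ, hχ, fun z => (h2 z).imp fun _ h => h.2, rfl⟩)
      obtain ⟨y, hy, hy'⟩ := h2 (χ ⟨a, ha⟩)
      exact ⟨y, hy, (hmem χ (y⁻¹ * ⟨a, ha⟩)).2 (by simp [hy'])⟩
    · refine ⟨_, (hnss χ hχ).mem_nhdsWithin inf_le_left hn fun y hy => ?_,
        fun h => hχx ((hmem χ ⟨x, hx.1⟩).1 h)⟩
      exact (hmem χ (⟨y, hy.1⟩ ^ n)).2 (by rw [map_pow]; exact h1 _ ⟨⟨y, hy.1⟩, hy, rfl⟩)
  have hfin := h.finite_of_le_abelian hA hAn hAc inf_le_left hDc hD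
  rcases hcase with hJf | ⟨P, Q, N, hP, hQ, -, -, -, -, hprod, hQD, hQP⟩
  · refine (NSS.sInf hJf fun P hP => ?_).exists_ker hfin
    obtain ⟨χ, hχ, -, rfl⟩ := hJ hP
    exact hnss χ hχ
  exfalso
  have hq : ∀ n, ∃ q ∈ Q n, q ∈ A ∧ q ∉ P n ∧ q ^ 2 ∈ P n := fun n => by
    obtain ⟨χ, -, hs, he⟩ := hP n
    obtain ⟨I, -, hI⟩ := hQ n
    obtain ⟨y, hy⟩ := hs (-1)
    obtain ⟨q, hq, hq'⟩ := hprod n y y.2
    have hqA : q ∈ A := (hI.le hq).1
    rw [he] at hq' ⊢
    have h1 := (hmem χ (⟨q, hqA⟩⁻¹ * y)).1 hq'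
    rw [map_mul, map_inv, inv_mul_eq_one, hy] at h1
    exact ⟨q, hq, hqA, fun h => hne (h1 ▸ (hmem χ ⟨q, hqA⟩).1 h),
      (hmem χ (⟨q, hqA⟩ ^ 2)).2 (by rw [map_pow, h1]; simp)⟩
  choose q hq hqA hq1 hq2 using hq
  have : Finite (A ⊓ sInf J : Subgroup K) := hfin
  have he : 0 < 2 * Nat.card (A ⊓ sInf J : Subgroup K) := mul_pos two_pos Nat.card_pos
  refine infinite_of_injective_forall_mem (f := q) (fun a b hab => ?_)
    (fun n => show q n ∈ pw A hA ⊥ _ from ⟨hqA n, ?_⟩)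
    (h.finite_of_pf (pw_normal hA hAn inferInstance _)
      (pw_isClosed hA hAc (N := ⊥) isClosed_singleton (2 * Nat.card (A ⊓ sInf J : Subgroup K)))
      (PF.of_exp fun N _ => ⟨_, he, fun y hy => bot_le (a := N) hy.2⟩))
  · by_contra hne
    exact hq1 b (hQP a b hne (hab ▸ hq a))
  · have h1 : q n ^ 2 ∈ A ⊓ sInf J := hQD n ⟨(Q n).pow_mem (hq n) 2, hq2 n⟩
    rw [pow_mul]
    exact congrArg Subtype.val (pow_card_eq_one' (x := (⟨_, h1⟩ : (A ⊓ sInf J : Subgroup K))))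

omit [T2Space K] in
theorem Hyp.exists_torsion (h : Hyp G) {Q : Subgroup K} (hn : Q.Normal) (hc : IsClosed (Q : Set K))
    (hne : Q ≠ ⊥) {A : Type*} [NormedRing A] [NormedAlgebra ℝ A] {f : K →* A} (hf : Continuous f)
    (hQ : Q ⊓ f.ker ≤ ⊥) : ∃ g ∈ G, g ∈ Q ∧ g ≠ 1 ∧ ∃ k, 0 < k ∧ g ^ k = 1 := by
  obtain ⟨x, hxG, hxQ, hx1⟩ := h.ess Q hn hc hne
  obtain ⟨a, ha, ha1, k, hk, hak⟩ := Lib.CompactGroup.exists_torsion hf (g := x)
    fun h => hx1 (hQ ⟨hxQ, h⟩)
  have h1 : IsCountablyCompact ((G ⊓ Q : Subgroup K) : Set K) := fun l _ _ hl => by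
    obtain ⟨y, hy, hy'⟩ := h.cc (hl.trans (principal_mono.2 inter_subset_left))
    exact ⟨y, ⟨hy, hc.closure_subset (hy'.mono
      (hl.trans (principal_mono.2 inter_subset_right))).mem_closure⟩, hy'⟩
  have h2 := (h1.image hf).isSeqCompact.isCompact.isClosed
  obtain ⟨g, hg, hga⟩ := h2.closure_subset (image_closure_subset_closure_image hf ⟨a,
    closure_mono ((Subgroup.zpowers_le (H := G ⊓ Q)).2 ⟨hxG, hxQ⟩) ha, rfl⟩)
  refine ⟨g, hg.1, hg.2, fun h => ha1 (by rw [← hga, h, map_one]), k, hk,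
    hQ ⟨Q.pow_mem hg.2 k, f.mem_ker.2 ?_⟩⟩
  rw [map_pow, hga, hak]

theorem Hyp.ker_bot (h : Hyp G) : Ker (⊥ : Subgroup K) := by
  let M := Subgroup.connectedComponentOfOne K
  have hMc : IsClosed (M : Set K) := isClosed_connectedComponent
  have hMn : M.Normal := ⟨fun x hx g => by
    have := (IsTopologicalGroup.continuous_conj g).image_connectedComponent_subset 1 ⟨x, hx, rfl⟩
    rw [mul_one, mul_inv_cancel] at this
    exact this⟩
  obtain ⟨N₀, hN₀, hN₀'⟩ := h.exists_ker_abelian (A := M ⊓ Subgroup.centralizer M)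
    (fun a ha b hb => hb.2 a ha.1) inferInstance (hMc.inter (Set.isClosed_centralizer _))
  have := hN₀.normal
  let Ps := {P : Subgroup K | ¬ M ⊓ N₀ ≤ P ∧ ∃ (A : Type u) (_ : NormedRing A)
    (_ : NormedAlgebra ℝ A) (f : K →* A), Continuous f ∧ P = f.ker}
  have hPk : ∀ P ∈ Ps, Ker P := by
    rintro _ ⟨-, A, _, _, f, hf, rfl⟩
    exact Ker.of_hom hf
  have hM'c : IsClosed ((M ⊓ N₀ : Subgroup K) : Set K) := hMc.inter hN₀.isClosed
  obtain ⟨J, hJ, hmax, hcase⟩ := exists_indep hM'c Ps (fun P hP => (hPk P hP).isClosed)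
    (fun P hP => hP.1) fun P hP x _ p _ hp => by simpa using (hPk P hP).normal.conj_mem p hp x⁻¹
  have hI : ∀ I ⊆ Ps, (M ⊓ N₀ ⊓ sInf I).Normal ∧
      IsClosed ((M ⊓ N₀ ⊓ sInf I : Subgroup K) : Set K) := fun I hI =>
    ⟨normal_inf_sInf inferInstance fun P hP => (hPk P (hI hP)).normal,
      isClosed_inf_sInf hM'c fun P hP => (hPk P (hI hP)).isClosed⟩
  have hD : M ⊓ N₀ ⊓ sInf J ≤ ⊥ := by
    intro r hr
    by_contra hr1
    have h1 : r ∉ Subgroup.centralizer (M : Set K) := fun h => hr1 (hN₀'.le ⟨hr.1.2, hr.1.1, h⟩)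
    obtain ⟨x, hx, hxr⟩ : ∃ x ∈ M, r * x ≠ x * r := by
      by_contra hcon
      push Not at hcon
      exact h1 fun x hx => (hcon x hx).symm
    have := (hI J hJ).1
    obtain ⟨A, _, _, f, hf, h2, h3⟩ := exists_complement hMc isPreconnected_connectedComponent
      (hI J hJ).2 (inf_le_left.trans inf_le_left) hr hxr
    refine hmax f.ker ⟨fun hle => h3 ?_, A, inferInstance, inferInstance, f, hf, rfl⟩ fun y hy => h2 y hy.1
    obtain ⟨s, hs, hs'⟩ := h2 x hx
    have : f s = 1 := hle hs.1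
    rw [← mul_inv_cancel_left s x, map_mul, this, hs', one_mul]
  rcases hcase with hJf | ⟨P, Q, N, hP, hQ, hN, ha, hQN, hND, hprod, hQD, hQP⟩
  · have h1 := hN₀.inf (Ker.sInf hJf fun P hP => hPk P (hJ hP))
    obtain ⟨N, hN, hN'⟩ := exists_ker_disjoint (h.finite_of_pf h1.normal h1.isClosed
      (PF.of_component h1.isClosed (eq_bot_iff.2 fun x hx => hD ⟨⟨hx.2, hx.1.1⟩, hx.1.2⟩)))
    exact hN' ▸ hN.inf h1
  exfalso
  have hQn : ∀ n, (Q n).Normal ∧ IsClosed (Q n : Set K) := fun n => by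
    obtain ⟨I, hI', he⟩ := hQ n
    exact he ▸ hI I hI'
  have hg : ∀ n, ∃ g ∈ G, g ∈ Q n ∧ g ≠ 1 ∧ ∃ k, 0 < k ∧ g ^ k = 1 := fun n => by
    obtain ⟨h1, A, _, _, f, hf, he⟩ := hP n
    refine h.exists_torsion (hQn n).1 (hQn n).2 (fun hbot => h1 fun x hx => ?_) hf
      (he ▸ (hQD n).trans hD)
    obtain ⟨q, hq, hq'⟩ := hprod n x hx
    rw [hbot, Subgroup.mem_bot] at hq
    simpa [hq] using hq'
  choose g hgG hgQ hg1 k hk hgk using hg
  have hev : ∀ U, Ker U → ∀ᶠ n in atTop, g n ∈ U := fun U hU =>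
    (eventually_le_ker ha (fun n => by
      obtain ⟨I, hI', he⟩ := hN n
      exact he ▸ (hI I hI').2) (fun x hx => hD (hND x hx)) hU).mono fun n hn => hn (hQN n (hgQ n))
  have hcomm : ∀ a ∈ Subgroup.closure (range g), ∀ b ∈ Subgroup.closure (range g),
      Commute a b := by
    have := Subgroup.isMulCommutative_closure (k := range g) (by
      rintro _ ⟨a, rfl⟩ _ ⟨b, rfl⟩
      by_cases hab : a = b
      · rw [hab]
      · exact Subgroup.commute_of_normal_of_disjoint _ _ (hQn a).1 (hQn b).1 (disjoint_iff_inf_le.2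
          fun x hx => hD (hQD a ⟨hx.1, hQP b a (Ne.symm hab) hx.2⟩)) _ _ (hgQ a) (hgQ b))
    intro a ha b hb
    exact congrArg Subtype.val (this.is_comm.comm ⟨a, ha⟩ ⟨b, hb⟩)
  refine h.no_null hgG hg1 hev (PF.of_exp fun U hU => ?_)
  obtain ⟨m, hm⟩ := eventually_atTop.1 (hev U hU)
  refine ⟨∏ n ∈ Finset.range m, k n, Finset.prod_pos fun n _ => hk n, fun y hy => ?_⟩
  refine closure_minimal (t := {y | y ^ (∏ n ∈ Finset.range m, k n) ∈ U}) (fun y hy => ?_)
    (hU.isClosed.preimage (continuous_pow _)) hy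
  refine ((Subgroup.closure_le (pw _ hcomm U _)).2 ?_ hy).2
  rintro _ ⟨n, rfl⟩
  refine ⟨Subgroup.subset_closure ⟨n, rfl⟩, ?_⟩
  by_cases hn : n < m
  · obtain ⟨c, hc⟩ := Finset.dvd_prod_of_mem k (Finset.mem_range.2 hn)
    rw [hc, pow_mul, hgk, one_pow]
    exact U.one_mem
  · exact U.pow_mem (hm n (not_lt.1 hn)) _

end Pool.Agent.MP_37cedb_gt

end
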