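import Pool.Agent.MP_37cedb_gt.Defs
import Pool.Agent.MP_37cedb_gt.Mg.Main
import Pool.Agent.Lib.CompactGroup.Completion

/-!
From a minimal group to its compact completion.
-/

namespace Pool.Agent.MP_37cedb_gt

open Filter Topology Set Pool.Agent.Lib.CompactGroup

universe u

variable {G : Type u} [Group G] [TopologicalSpace G] [IsTopologicalGroup G]
  {K : Type u} [Group K] [TopologicalSpace K] [IsTopologicalGroup K] [CompactSpace K] [T2Space K]

omit [IsTopologicalGroup G] [CompactSpace K] in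
theorem ess_of_minimal (hm : IsMinimalGroup G) {ι : G →* K} (hι : IsEmbedding ι)
    (hd : DenseRange ι) (N : Subgroup K) (hN : N.Normal) (hc : IsClosed (N : Set K))
    (hne : N ≠ ⊥) : ∃ x ∈ ι.range, x ∈ N ∧ x ≠ 1 := by
  by_contra hcon
  push Not at hcon
  let f : G →* K ⧸ N := (QuotientGroup.mk' N).comp ι
  have hf : Function.Injective f := (injective_iff_map_eq_one f).2 fun g hg =>
    hι.injective ((hcon _ ⟨g, rfl⟩ ((QuotientGroup.eq_one_iff _).1 hg)).trans (map_one ι).symm)
  have hfc : Continuous f := QuotientGroup.continuous_mk.comp hι.continuous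
  have h1 := hm f.range (MonoidHom.ofInjective hf) (hfc.subtype_mk _)
  obtain ⟨⟨n, hn⟩, hn1⟩ := Subgroup.ne_bot_iff_exists_ne_one.1 hne
  have hn1' : n ≠ 1 := fun h => hn1 (Subtype.ext h)
  obtain ⟨V, hV, hVc, hVn⟩ := exists_mem_nhds_isClosed_subset (compl_singleton_mem_nhds hn1'.symm)
  have h2 : (MonoidHom.ofInjective hf).symm ⁻¹' (ι ⁻¹' V) ∈ 𝓝 1 :=
    h1.continuousAt.preimage_mem_nhds (hι.continuous.continuousAt.preimage_mem_nhds (by simpa))
  obtain ⟨O, hO, hO'⟩ := (mem_nhds_subtype _ _ _).1 h2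
  have h3 : (QuotientGroup.mk : K → K ⧸ N) ⁻¹' O ∈ 𝓝 n :=
    QuotientGroup.continuous_mk.continuousAt.preimage_mem_nhds
      (by rwa [(QuotientGroup.eq_one_iff n).2 hn])
  refine hVn (hVc.closure_subset (mem_closure_iff_nhds.2 fun T hT => ?_)) rfl
  obtain ⟨g, hg⟩ := hd.mem_nhds (inter_mem hT h3)
  have h4 : ι ((MonoidHom.ofInjective hf).symm (MonoidHom.ofInjective hf g)) ∈ V :=
    hO' (a := MonoidHom.ofInjective hf g) hg.2
  exact ⟨ι g, hg.1, by rwa [MulEquiv.symm_apply_apply] at h4⟩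

omit [IsTopologicalGroup G] [IsTopologicalGroup K] [T2Space K] in
theorem zm_of_propZm (hz : PropZm G) {ι : G →* K} (hι : IsEmbedding ι)
    (L : Subgroup K) (hL : IsClosed (L : Set K)) (I : Type u) [Countable I] (φ : L → I → Bool)
    (hφ : Continuous φ) (hi : Function.Injective φ) :
    ∃ W ∈ 𝓝 (1 : K), ∀ x ∈ ι.range, x ∈ L → x ∈ W → x = 1 := by
  have : CompactSpace L := isCompact_iff_compactSpace.1 hL.isCompact
  let j : L.comap ι → L := fun g => ⟨ι g, g.2⟩
  have hj : IsEmbedding j :=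
    IsEmbedding.subtypeVal.of_comp_iff.1 (hι.comp IsEmbedding.subtypeVal)
  have he := (hφ.isClosedEmbedding hi).isEmbedding.comp hj
  have hzd : ZeroDim (L.comap ι) :=
    (isTopologicalBasis_isClopen.isInducing he.isInducing).of_isOpen_of_subset
      (fun _ h => h.isOpen) (by rintro _ ⟨U, hU, rfl⟩; exact hU.preimage he.continuous)
  have := hz _ (hL.preimage hι.continuous) hzd he.metrizableSpace
  have h1 : ({1} : Set (L.comap ι)) ∈ 𝓝 1 := (isOpen_discrete _).mem_nhds rfl
  rw [(hι.comp IsEmbedding.subtypeVal).nhds_eq_comap] at h1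
  obtain ⟨W, hW, hW'⟩ := h1
  refine ⟨W, by simpa using hW, ?_⟩
  rintro _ ⟨g, rfl⟩ hg hgW
  have := hW' (a := ⟨g, hg⟩) hgW
  rw [show g = 1 from congrArg Subtype.val this, map_one]

theorem main [T2Space G] [CountablyCompactSpace G] (hm : IsMinimalGroup G) (hz : PropZm G) :
    PropZ G ∧ CompactSpace G ∧ TopologicalSpace.MetrizableSpace G ∧
      ∃ W ∈ 𝓝 (1 : G), ∀ H : Subgroup G, (H : Set G) ⊆ W → H = ⊥ := by
  obtain ⟨K, _, _, _, _, _, ι, hι, hd⟩ := exists_completion G
  have h : Hyp ι.range := ⟨ess_of_minimal hm hι hd, by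
    rw [MonoidHom.coe_range, ← image_univ]
    exact CountablyCompactSpace.isCountablyCompact_univ.image hι.continuous,
    zm_of_propZm hz hι⟩
  have := metrizable_of_ker_bot h.ker_bot
  have hG := hι.metrizableSpace
  have := hι.secondCountableTopology
  obtain ⟨W, hW, hW'⟩ := h.ker_bot.nss
  refine ⟨fun H hH h0 => hz H hH h0 IsEmbedding.subtypeVal.metrizableSpace, LindelofSpace.compactSpace, hG, ι ⁻¹' W,
    hι.continuous.continuousAt.preimage_mem_nhds (by simpa), fun H hH => ?_⟩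
  refine (Subgroup.eq_bot_iff_forall H).2 fun g hg => hι.injective ?_
  rw [map_one]
  exact hW' _ trivial fun n => ⟨1, rfl, by simpa using hH (H.pow_mem hg n)⟩

end Pool.Agent.MP_37cedb_gt
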